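import Pool.Agent.Q23.EG.Stm

/-!
# Project EG (helper23): the jobs A4 and A5 (helper277)
-/

set_option autoImplicit false

namespace Pool.Agent.Q277.EG

open Finset Pool.Agent.Q23.EG

theorem one_add_pow {R : Type} [CommRing R] {x : R} (hx : x * x = 0) (n : ℕ) :
    (1 + x) ^ n = 1 + n * x := by
  induction n with
  | zero => simp
  | succ n ih =>
    rw [pow_succ, ih]
    push_cast
    linear_combination (n : R) * hx

theorem MM_zero {M E Q : ℕ} (hME : Q = M * E) (hE : E ∣ M) : (M : ZMod Q) * (M : ZMod Q) = 0 := by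
  rw [← Nat.cast_mul, ZMod.natCast_eq_zero_iff, hME]
  exact Nat.mul_dvd_mul_left M hE

theorem ME_zero {M E Q : ℕ} (hME : Q = M * E) : (M : ZMod Q) * (E : ZMod Q) = 0 := by
  rw [← Nat.cast_mul, ← hME, ZMod.natCast_self]

/-- an element of the kernel -/
theorem ker_form {M E Q : ℕ} [NeZero Q] [NeZero M] (hQ : M ∣ Q) (hME : Q = M * E) (c : (ZMod Q)ˣ)
    (hc : ZMod.unitsMap hQ c = 1) : ∃ t : ℕ, t < E ∧ (c : ZMod Q) = 1 + (M : ZMod Q) * (t : ZMod Q) := by
  have hE0 : 0 < E := by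
    rcases Nat.eq_zero_or_pos E with h | h
    · exact absurd (by rw [hME, h, mul_zero]) (NeZero.ne Q)
    · exact h
  have h1 : ZMod.castHom hQ (ZMod M) (c : ZMod Q) = 1 := by
    have := congrArg Units.val hc
    simpa [ZMod.unitsMap] using this
  have h2 : ZMod.castHom hQ (ZMod M) ((c : ZMod Q) - 1) = 0 := by
    rw [map_sub, h1, map_one, sub_self]
  have h3 : ((((c : ZMod Q) - 1).val : ℕ) : ZMod M) = 0 := by
    rw [ZMod.castHom_apply] at h2
    rwa [ZMod.natCast_val]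
  rw [ZMod.natCast_eq_zero_iff] at h3
  obtain ⟨s, hs⟩ := h3
  have h4 : (c : ZMod Q) - 1 = (M : ZMod Q) * (s : ZMod Q) := by
    rw [← ZMod.natCast_zmod_val ((c : ZMod Q) - 1), hs, Nat.cast_mul]
  refine ⟨s % E, Nat.mod_lt _ hE0, ?_⟩
  have h5 : (M : ZMod Q) * (s : ZMod Q) = (M : ZMod Q) * ((s % E : ℕ) : ZMod Q) := by
    have h6 : ((s : ℕ) : ZMod Q) = ((s % E : ℕ) : ZMod Q) + (E : ZMod Q) * ((s / E : ℕ) : ZMod Q) := by
      have h7 := Nat.mod_add_div s E
      have h8 := congrArg (fun n : ℕ => (n : ZMod Q)) h7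
      simp only [Nat.cast_add, Nat.cast_mul] at h8
      exact h8.symm
    rw [h6, mul_add, ← mul_assoc, ME_zero hME, zero_mul, add_zero]
  rw [← h5, ← h4]
  ring

theorem ker_pow {M E Q : ℕ} [NeZero Q] [NeZero M] (hQ : M ∣ Q) (hME : Q = M * E) (hE : E ∣ M)
    (c : (ZMod Q)ˣ) (hc : ZMod.unitsMap hQ c = 1) : (c : ZMod Q) ^ E = 1 := by
  obtain ⟨t, -, ht⟩ := ker_form hQ hME c hc
  have h1 : ((M : ZMod Q) * (t : ZMod Q)) * ((M : ZMod Q) * (t : ZMod Q)) = 0 := by
    linear_combination ((t : ZMod Q) * (t : ZMod Q)) * MM_zero hME hE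
  rw [ht, one_add_pow h1]
  linear_combination (t : ZMod Q) * ME_zero hME

open scoped Classical in
/-- JOB A4 -/
theorem fiber : S_fiber := by
  intro k _ q u M E Q _ _ hQ χ f hME hE hq H a
  have hker : ∀ c : (ZMod Q)ˣ, ZMod.unitsMap hQ c = 1 → c ∈ kerPow χ (q - 1) := by
    intro c hc
    change χ (c : ZMod Q) ^ (q - 1) = 1
    rw [hq, pow_mul, ← map_pow, ker_pow hQ hME hE c hc, map_one, one_pow]
  have hiff : ∀ c : (ZMod Q)ˣ, χ ((c * a⁻¹ : (ZMod Q)ˣ) : ZMod Q) ^ (q - 1) = 1 ↔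
      (ZMod.unitsMap hQ a)⁻¹ * ZMod.unitsMap hQ c ∈ GG hQ χ (q - 1) := by
    intro c
    have e : (ZMod.unitsMap hQ a)⁻¹ * ZMod.unitsMap hQ c = ZMod.unitsMap hQ (c * a⁻¹) := by
      rw [map_mul, map_inv, mul_comm]
    rw [e]
    constructor
    · intro h
      exact Subgroup.mem_map_of_mem _ h
    · intro h
      obtain ⟨d, hd, hd2⟩ := Subgroup.mem_map.1 h
      have h1 : ZMod.unitsMap hQ (d⁻¹ * (c * a⁻¹)) = 1 := by
        rw [map_mul, map_inv, hd2, inv_mul_cancel]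
      have h2 := hker _ h1
      have h3 := (kerPow χ (q - 1)).mul_mem hd h2
      rw [mul_inv_cancel_left] at h3
      exact h3
  have h0 := H a
  rw [← Finset.sum_fiberwise_of_maps_to (s := univ.filter (fun c : (ZMod Q)ˣ =>
      χ ((c * a⁻¹ : (ZMod Q)ˣ) : ZMod Q) ^ (q - 1) = 1))
    (t := univ.filter (fun b : (ZMod M)ˣ => b ∈ GG hQ χ (q - 1)))
    (g := fun c => (ZMod.unitsMap hQ a)⁻¹ * ZMod.unitsMap hQ c)] at h0
  · rw [← h0]
    refine Finset.sum_congr rfl fun b hb => Finset.sum_congr ?_ fun _ _ => rfl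
    rw [mem_filter] at hb
    ext c
    simp only [mem_filter, mem_univ, true_and]
    constructor
    · intro h
      have h1 : (ZMod.unitsMap hQ a)⁻¹ * ZMod.unitsMap hQ c = b := by
        rw [h, inv_mul_cancel_left]
      exact ⟨(hiff c).2 (by rw [h1]; exact hb.2), h1⟩
    · rintro ⟨-, h⟩
      rw [← h, mul_inv_cancel_left]
  · intro c hc
    rw [mem_filter] at hc ⊢
    exact ⟨mem_univ _, (hiff c).1 hc.2⟩

/-- the unit `1 + M t` -/
def ut {M E Q : ℕ} (hME : Q = M * E) (hE : E ∣ M) (t : ℕ) : (ZMod Q)ˣ where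
  val := 1 + (M : ZMod Q) * (t : ZMod Q)
  inv := 1 - (M : ZMod Q) * (t : ZMod Q)
  val_inv := by linear_combination (-((t : ZMod Q) * (t : ZMod Q))) * MM_zero hME hE
  inv_val := by linear_combination (-((t : ZMod Q) * (t : ZMod Q))) * MM_zero hME hE

open scoped Classical in
/-- JOB A5 -/
theorem eval : S_eval := by
  intro k _ M E Q N _ _ hQ χ e w hME hE c₀
  have hE0 : 0 < E := by
    rcases Nat.eq_zero_or_pos E with h | h
    · exact absurd (by rw [hME, h, mul_zero]) (NeZero.ne Q)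
    · exact h
  have hM0 : 0 < M := Nat.pos_of_ne_zero (NeZero.ne M)
  set ξ : k := χ⁻¹ ((1 + M : ℕ) : ZMod Q) with hξ
  have hpow : ∀ t : ℕ, χ⁻¹ (1 + (M : ZMod Q) * (t : ZMod Q)) = ξ ^ t := by
    intro t
    rw [hξ, ← map_pow]
    congr 1
    push_cast
    rw [one_add_pow (MM_zero hME hE)]
    ring
  have hξE : ξ ^ E = 1 := by
    rw [← hpow, ME_zero hME, add_zero, map_one]
  -- the fiber
  have hsum : ∀ g : (ZMod Q)ˣ → k,
      ∑ c ∈ univ.filter (fun c : (ZMod Q)ˣ => ZMod.unitsMap hQ c = ZMod.unitsMap hQ c₀), g c =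
        ∑ t ∈ range E, g (c₀ * ut hME hE t) := by
    intro g
    symm
    refine Finset.sum_bij (fun t _ => c₀ * ut hME hE t) ?_ ?_ ?_ ?_
    · intro t _
      rw [mem_filter]
      refine ⟨mem_univ _, ?_⟩
      have h1 : ZMod.unitsMap hQ (ut hME hE t) = 1 := by
        refine Units.ext ?_
        change ZMod.castHom hQ (ZMod M) (1 + (M : ZMod Q) * (t : ZMod Q)) = 1
        rw [map_add, map_mul, map_one, map_natCast, map_natCast, ZMod.natCast_self, zero_mul, add_zero]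
      rw [map_mul, h1, mul_one]
    · intro t ht s hs h
      have h1 : ut hME hE t = ut hME hE s := mul_left_cancel h
      have h2 : (1 : ZMod Q) + (M : ZMod Q) * (t : ZMod Q) = 1 + (M : ZMod Q) * (s : ZMod Q) :=
        congrArg Units.val h1
      have h3 : ((M * t : ℕ) : ZMod Q) = ((M * s : ℕ) : ZMod Q) := by
        push_cast
        exact add_left_cancel h2
      rw [mem_range] at ht hs
      rw [ZMod.natCast_eq_natCast_iff'] at h3
      rw [Nat.mod_eq_of_lt (by rw [hME]; exact Nat.mul_lt_mul_of_pos_left ht hM0),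
        Nat.mod_eq_of_lt (by rw [hME]; exact Nat.mul_lt_mul_of_pos_left hs hM0)] at h3
      exact Nat.eq_of_mul_eq_mul_left hM0 h3
    · intro c hc
      rw [mem_filter] at hc
      have h1 : ZMod.unitsMap hQ (c₀⁻¹ * c) = 1 := by
        rw [map_mul, map_inv, hc.2, inv_mul_cancel]
      obtain ⟨t, ht, h2⟩ := ker_form hQ hME _ h1
      refine ⟨t, mem_range.2 ht, ?_⟩
      have h3 : ut hME hE t = c₀⁻¹ * c := Units.ext h2.symm
      rw [h3, mul_inv_cancel_left]
    · intro t _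
      rfl
  rw [hsum]
  have hterm : ∀ t : ℕ, χ⁻¹ ((c₀ * ut hME hE t : (ZMod Q)ˣ) : ZMod Q) *
      (∑ y ∈ range N, w y * e (((c₀ * ut hME hE t : (ZMod Q)ˣ) : ZMod Q) * (y : ZMod Q))) =
      ∑ y ∈ range N, χ⁻¹ (c₀ : ZMod Q) * (w y * e (c₀ : ZMod Q) ^ y) *
        (ξ * e ((M : ZMod Q) * (c₀ : ZMod Q) * (y : ZMod Q))) ^ t := by
    intro t
    rw [Finset.mul_sum]
    refine Finset.sum_congr rfl fun y _ => ?_
    have h1 : ((c₀ * ut hME hE t : (ZMod Q)ˣ) : ZMod Q) =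
        (c₀ : ZMod Q) * (1 + (M : ZMod Q) * (t : ZMod Q)) := rfl
    have h2 : (c₀ : ZMod Q) * (1 + (M : ZMod Q) * (t : ZMod Q)) * (y : ZMod Q) =
        y • (c₀ : ZMod Q) + t • ((M : ZMod Q) * (c₀ : ZMod Q) * (y : ZMod Q)) := by
      simp only [nsmul_eq_mul]
      ring
    rw [h1, h2, map_mul, hpow, AddChar.map_add_eq_mul, AddChar.map_nsmul_eq_pow,
      AddChar.map_nsmul_eq_pow, mul_pow]
    ring
  rw [Finset.sum_congr rfl fun t _ => hterm t, Finset.sum_comm, Finset.mul_sum]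
  refine Finset.sum_congr rfl fun y _ => ?_
  rw [← Finset.mul_sum]
  set ζ : k := ξ * e ((M : ZMod Q) * (c₀ : ZMod Q) * (y : ZMod Q)) with hζ
  have hζE : ζ ^ E = 1 := by
    rw [hζ, mul_pow, hξE, one_mul, ← AddChar.map_nsmul_eq_pow]
    have h1 : E • ((M : ZMod Q) * (c₀ : ZMod Q) * (y : ZMod Q)) = 0 := by
      rw [nsmul_eq_mul]
      linear_combination ((c₀ : ZMod Q) * (y : ZMod Q)) * ME_zero hME
    rw [h1, AddChar.map_zero_eq_one]
  by_cases h : ζ = 1
  · rw [if_pos h, h]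
    simp only [one_pow, Finset.sum_const, card_range, nsmul_eq_mul, mul_one]
    ring
  · rw [if_neg h]
    have h1 : ∑ t ∈ range E, ζ ^ t = 0 := by
      have h2 := mul_geom_sum ζ E
      rw [hζE, sub_self] at h2
      rcases mul_eq_zero.1 h2 with h3 | h3
      · exact absurd (sub_eq_zero.1 h3) h
      · exact h3
    rw [h1]
    ring

end Pool.Agent.Q277.EG
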